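import Pool.Agent.Q278.Four

set_option autoImplicit false

/-! A q-congruence modulo `Φ_n(q)²` with numerator parameters `q, q², …, q^d`. -/

namespace Pool.Agent.Results.MP_4d1f21_nt.Full

open Finset Polynomial Q278.Cyc

/-- `(x; y)_k = (1 - x)(1 - x y) ⋯ (1 - x y^(k-1))`. -/
noncomputable def qp (x y : RatFunc ℚ) (k : ℕ) : RatFunc ℚ := ∏ l ∈ range k, (1 - x * y ^ l)

/-- The sum `∑_{k=0}^{n-1} (q, q², …, q^d; q^m)_k q^(m k) / (q^m; q^m)_k^d` in `ℚ(q)`, where
`q = RatFunc.X`. -/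
noncomputable def S (d m n : ℕ) : RatFunc ℚ :=
  ∑ k ∈ range n, (∏ j ∈ range d, qp (RatFunc.X ^ (j + 1)) (RatFunc.X ^ m) k) /
    qp (RatFunc.X ^ m) (RatFunc.X ^ m) k ^ d * RatFunc.X ^ (m * k)

/-- **Theorem.** Let `d ≥ 3`, `m = d (d + 1) / 2` and let `n > 1` satisfy `n ≡ -1 (mod m)`. Then
`Φ_n(q)²` divides the numerator of the sum (in lowest terms), and its denominator is prime
to `Φ_n(q)²`. -/
theorem result : ∀ d m n : ℕ, 3 ≤ d → m = d * (d + 1) / 2 → 1 < n → m ∣ n + 1 →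
    cyclotomic n ℚ ^ 2 ∣ RatFunc.num (S d m n) ∧
    IsCoprime (RatFunc.denom (S d m n)) (cyclotomic n ℚ ^ 2) := by
  intro d m n hd hm hn hmn
  obtain ⟨M, hM⟩ := hmn
  have hm2 : 2 * m = d * (d + 1) := by
    rw [hm]
    exact Nat.mul_div_cancel' (even_iff_two_dvd.1 (Nat.even_mul_succ_self d))
  have hη := Complex.isPrimitiveRoot_exp n (by omega : n ≠ 0)
  have h1 := Q278.Four.main hd hm2 hM hn hη
  have e : S d m n = Q278.Four.F n m d (fun _ => 0) := by
    unfold S Q278.Four.F Q278.Four.g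
    apply sum_congr rfl
    intro k _
    have e1 : qp (RatFunc.X ^ m) (RatFunc.X ^ m) k ^ d =
        ∏ _j ∈ range d, qp (RatFunc.X ^ m) (RatFunc.X ^ m) k := by rw [prod_const, card_range]
    rw [e1, ← prod_div_distrib, pow_mul]
    congr 1
    apply prod_congr rfl
    intro j _
    unfold qp
    rw [← prod_div_distrib]
    apply prod_congr rfl
    intro l _
    rw [zpow_zero, mul_one, pow_succ' _ l]
  rw [← e] at h1
  obtain ⟨h2, h3⟩ := num_dvd (by omega) hη h1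
  exact ⟨h2, h3.pow_right⟩

end Pool.Agent.Results.MP_4d1f21_nt.Full
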